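import Pool.Agent.Helper98.DISC.GoalsA
import Pool.Agent.Helper98.DISC.GoalsB

/-!
# Project DISC, packet VAN: the functions `F_m` vanish to order `2m + 1` at `0`
-/

open MeasureTheory Set Filter Topology Metric

noncomputable section

namespace Pool.Agent.Helper72.DISC

open Pool.Agent.Helper98.DISC

/-- The moments of `y_k` vanish. -/
theorem moment (h1 : S_DCY) (h2 : S_DIF) (k : ℕ) (hk : 2 ≤ k) (j : ℕ) (hj : j + 2 ≤ 2 * k)
    (ρ : ℝ) (hρ : (k : ℝ) - 1 < ρ) : (∮ z in C(0, ρ), z ^ j * yk k z) = 0 := by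
  obtain ⟨C, r, hC⟩ := h1 k hk
  have hk' : (2 : ℝ) ≤ k := by exact_mod_cast hk
  have hρ0 : 0 < ρ := by linarith
  have key : ∀ R : ℝ, ρ ≤ R → r < R → 1 ≤ R →
      ‖∮ z in C(0, ρ), z ^ j * yk k z‖ ≤ 2 * Real.pi * |C| / R := by
    intro R hR hr hR1
    have hR0 : 0 < R := by linarith
    have hdz : ∀ z : ℂ, ρ ≤ ‖z‖ → DifferentiableAt ℂ (fun z ↦ z ^ j * yk k z) z := by
      intro z hz
      exact (differentiableAt_id.pow j).mul (h2 k z (by linarith))
    have heq : (∮ z in C(0, R), z ^ j * yk k z) = ∮ z in C(0, ρ), z ^ j * yk k z := by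
      refine Complex.circleIntegral_eq_of_differentiable_on_annulus_off_countable hρ0 hR
        Set.countable_empty ?_ ?_
      · intro z hz
        refine (hdz z ?_).continuousAt.continuousWithinAt
        have := hz.2
        rw [mem_ball_zero_iff, not_lt] at this
        exact this
      · intro z hz
        refine hdz z ?_
        have := hz.1.2
        rw [mem_closedBall_zero_iff, not_le] at this
        exact this.le
    rw [← heq]
    have hb : ∀ z ∈ sphere (0 : ℂ) R, ‖z ^ j * yk k z‖ ≤ |C| / R ^ 2 := by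
      intro z hz
      rw [mem_sphere_zero_iff_norm] at hz
      rw [norm_mul, norm_pow, hz, le_div_iff₀ (by positivity)]
      have h3 := hC z (by rw [hz]; exact hr)
      rw [hz] at h3
      calc R ^ j * ‖yk k z‖ * R ^ 2 = ‖yk k z‖ * R ^ (j + 2) := by ring
        _ ≤ ‖yk k z‖ * R ^ (2 * k) := by
            gcongr
        _ ≤ C := h3
        _ ≤ |C| := le_abs_self C
    calc ‖∮ z in C(0, R), z ^ j * yk k z‖ ≤ 2 * Real.pi * R * (|C| / R ^ 2) :=
          circleIntegral.norm_integral_le_of_norm_le_const hR0.le hb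
      _ = 2 * Real.pi * |C| / R := by field_simp
  by_contra hne
  have hpos : 0 < ‖∮ z in C(0, ρ), z ^ j * yk k z‖ := norm_pos_iff.mpr hne
  set c := ‖∮ z in C(0, ρ), z ^ j * yk k z‖ with hc
  set R : ℝ := max (max ρ (r + 1)) (max 1 (2 * Real.pi * |C| / c + 1)) with hR
  have hR1 : ρ ≤ R := (le_max_left _ _).trans (le_max_left _ _)
  have hR2 : r + 1 ≤ R := (le_max_right _ _).trans (le_max_left _ _)
  have hR3 : 1 ≤ R := (le_max_left _ _).trans (le_max_right _ _)
  have hR4 : 2 * Real.pi * |C| / c + 1 ≤ R := (le_max_right _ _).trans (le_max_right _ _)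
  have h5 := key R hR1 (by linarith) hR3
  rw [le_div_iff₀ (by linarith)] at h5
  have h6 : R ≤ 2 * Real.pi * |C| / c := by
    rw [le_div_iff₀ hpos, mul_comm]
    exact h5
  linarith

/-- **VAN**. -/
theorem van (h1 : S_DCY) (h2 : S_DIF) : S_VAN := by
  intro m hm
  set ρ : ℝ := (m : ℝ) + 1 with hρ
  have hm' : (1 : ℝ) ≤ m := by exact_mod_cast hm
  have hρ0 : 0 < ρ := by linarith
  have hkρ : ((m + 1 : ℕ) : ℝ) - 1 < ρ := by push_cast; linarith
  have hcont : ContinuousOn (yk (m + 1)) (sphere (0 : ℂ) ρ) := by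
    intro z hz
    rw [mem_sphere_zero_iff_norm] at hz
    exact (h2 (m + 1) z (by rw [hz]; linarith)).continuousAt.continuousWithinAt
  obtain ⟨M, hM⟩ := (isCompact_sphere (0 : ℂ) ρ).exists_bound_of_continuousOn hcont
  have hCc : ∀ φ : ℝ, Cc ρ (yk (m + 1)) φ = (2 * Real.pi * Complex.I)⁻¹ *
      ∮ z in C(0, ρ), yk (m + 1) z * (Complex.exp (2 * Complex.I * z * φ) -
        ∑ j ∈ Finset.range (2 * m + 1), (2 * Complex.I * z * φ) ^ j / (j.factorial : ℂ)) := by
    intro φ
    unfold Cc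
    congr 1
    have hs : ∀ j ∈ Finset.range (2 * m + 1),
        (∮ z in C(0, ρ), yk (m + 1) z * ((2 * Complex.I * z * φ) ^ j / (j.factorial : ℂ))) = 0 := by
      intro j hj
      rw [Finset.mem_range] at hj
      have h3 : (fun z : ℂ ↦ yk (m + 1) z * ((2 * Complex.I * z * φ) ^ j / (j.factorial : ℂ))) =
          fun z ↦ ((2 * Complex.I * φ) ^ j / (j.factorial : ℂ)) * (z ^ j * yk (m + 1) z) := by
        funext z
        rw [show 2 * Complex.I * z * φ = (2 * Complex.I * φ) * z by ring, mul_pow]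
        ring
      rw [h3, circleIntegral.integral_const_mul, moment h1 h2 (m + 1) (by omega) j (by omega) ρ
        hkρ, mul_zero]
    have hint : ∀ j ∈ Finset.range (2 * m + 1), CircleIntegrable
        (fun z ↦ yk (m + 1) z * ((2 * Complex.I * z * φ) ^ j / (j.factorial : ℂ))) 0 ρ := by
      intro j _
      refine ContinuousOn.circleIntegrable hρ0.le (hcont.mul ?_)
      exact Continuous.continuousOn (by fun_prop)
    have hint' : CircleIntegrable
        (fun z ↦ yk (m + 1) z * Complex.exp (2 * Complex.I * z * φ)) 0 ρ := by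
      refine ContinuousOn.circleIntegrable hρ0.le (hcont.mul ?_)
      exact Continuous.continuousOn (by fun_prop)
    have hsum : CircleIntegrable (fun z ↦ ∑ j ∈ Finset.range (2 * m + 1),
        yk (m + 1) z * ((2 * Complex.I * z * φ) ^ j / (j.factorial : ℂ))) 0 ρ := by
      refine ContinuousOn.circleIntegrable hρ0.le ?_
      refine continuousOn_finsetSum _ fun j _ ↦ hcont.mul ?_
      exact Continuous.continuousOn (by fun_prop)
    have h4 : (∮ z in C(0, ρ), yk (m + 1) z * (Complex.exp (2 * Complex.I * z * φ) -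
        ∑ j ∈ Finset.range (2 * m + 1), (2 * Complex.I * z * φ) ^ j / (j.factorial : ℂ))) =
        (∮ z in C(0, ρ), yk (m + 1) z * Complex.exp (2 * Complex.I * z * φ)) -
        ∮ z in C(0, ρ), ∑ j ∈ Finset.range (2 * m + 1),
          yk (m + 1) z * ((2 * Complex.I * z * φ) ^ j / (j.factorial : ℂ)) := by
      rw [← circleIntegral.integral_sub hint' hsum]
      congr 1
      funext z
      rw [mul_sub, Finset.mul_sum]
    rw [h4, circleIntegral.integral_fun_sum hint, Finset.sum_eq_zero hs, sub_zero]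
  refine ⟨‖-(Complex.I / 2) ^ (m + 1) * (2 * Complex.I)‖ * (‖(2 * Real.pi * Complex.I : ℂ)⁻¹‖ *
    (2 * Real.pi * ρ * (|M| * ((2 * ρ) ^ (2 * m + 1) * Real.exp (2 * ρ))))), fun φ hφ ↦ ?_⟩
  have hb : ∀ z ∈ sphere (0 : ℂ) ρ, ‖yk (m + 1) z * (Complex.exp (2 * Complex.I * z * φ) -
        ∑ j ∈ Finset.range (2 * m + 1), (2 * Complex.I * z * φ) ^ j / (j.factorial : ℂ))‖ ≤
      |M| * ((2 * ρ) ^ (2 * m + 1) * Real.exp (2 * ρ)) * φ ^ (2 * m + 1) := by
    intro z hz
    have hMz := hM z hz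
    rw [mem_sphere_zero_iff_norm] at hz
    have hn : ‖2 * Complex.I * z * φ‖ = 2 * ρ * φ := by
      rw [norm_mul, norm_mul, norm_mul, Complex.norm_I, hz, Complex.norm_real, Real.norm_eq_abs,
        abs_of_nonneg hφ.1]
      simp
    have h5 := Complex.norm_exp_sub_sum_le_norm_mul_exp (2 * Complex.I * z * φ) (2 * m + 1)
    rw [hn] at h5
    have h6 : Real.exp (2 * ρ * φ) ≤ Real.exp (2 * ρ) := by
      apply Real.exp_le_exp.mpr
      have : 2 * ρ * φ ≤ 2 * ρ * 1 := by
        apply mul_le_mul_of_nonneg_left hφ.2 (by positivity)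
      linarith
    rw [norm_mul]
    calc ‖yk (m + 1) z‖ * ‖Complex.exp (2 * Complex.I * z * φ) -
          ∑ j ∈ Finset.range (2 * m + 1), (2 * Complex.I * z * φ) ^ j / (j.factorial : ℂ)‖
        ≤ |M| * ((2 * ρ * φ) ^ (2 * m + 1) * Real.exp (2 * ρ)) := by
          have h7 : 0 ≤ (2 * ρ * φ) ^ (2 * m + 1) := by
            have := hφ.1
            positivity
          refine mul_le_mul (hMz.trans (le_abs_self M)) (h5.trans ?_) (norm_nonneg _)
            (abs_nonneg _)
          exact mul_le_mul_of_nonneg_left h6 h7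
      _ = |M| * ((2 * ρ) ^ (2 * m + 1) * Real.exp (2 * ρ)) * φ ^ (2 * m + 1) := by
          rw [mul_pow (2 * ρ) φ]
          ring
  have h8 : Fm m φ = -(Complex.I / 2) ^ (m + 1) * (2 * Complex.I) * Cc ρ (yk (m + 1)) φ := rfl
  have h9 := circleIntegral.norm_integral_le_of_norm_le_const hρ0.le hb
  have h10 : ‖Fm m φ‖ = ‖-(Complex.I / 2) ^ (m + 1) * (2 * Complex.I)‖ *
      (‖(2 * Real.pi * Complex.I : ℂ)⁻¹‖ *
        ‖∮ z in C(0, ρ), yk (m + 1) z * (Complex.exp (2 * Complex.I * z * φ) -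
        ∑ j ∈ Finset.range (2 * m + 1), (2 * Complex.I * z * φ) ^ j / (j.factorial : ℂ))‖) := by
    rw [h8, norm_mul _ (Cc ρ (yk (m + 1)) φ), hCc φ, norm_mul (2 * Real.pi * Complex.I : ℂ)⁻¹ _]
  have h11 : ‖Fm m φ‖ ≤ ‖-(Complex.I / 2) ^ (m + 1) * (2 * Complex.I)‖ *
      (‖(2 * Real.pi * Complex.I : ℂ)⁻¹‖ *
        (2 * Real.pi * ρ * (|M| * ((2 * ρ) ^ (2 * m + 1) * Real.exp (2 * ρ)) *
          φ ^ (2 * m + 1)))) := by
    rw [h10]
    exact mul_le_mul_of_nonneg_left (mul_le_mul_of_nonneg_left h9 (norm_nonneg _))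
      (norm_nonneg _)
  refine h11.trans (le_of_eq ?_)
  ring

end Pool.Agent.Helper72.DISC
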